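import Pool.Agent.Results.MP_293d80_gt.CounterexampleUnderCH
import Pool.Agent.Helper896.ForceCH

/-!
# It is consistent with ZFC that Split(Λ,Λ) is not additive

First half: there is a forcing notion all of whose conditions force, over any ground model, that
`ω₁` is preserved and that the continuum hypothesis holds.  Second half: the continuum hypothesis
implies that there are two sets of reals with the property Split(Λ,Λ) whose union does not have
this property.  By the forcing theorem such sets exist in the extension.
-/

set_option autoImplicit false

namespace Pool.Agent.Results.MP_293d80_gt.ConsistentlyNotAdditive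

open Cardinal
open Pool.Agent.Results.MP_293d80_gt.CounterexampleUnderCH (SplitLL)
open Pool.Agent.Helper896.ForceCH (OmegaOnePreserved CHHolds)

/-- **Main theorem** (no hypothesis).  Some forcing notion forces the continuum hypothesis, and the
continuum hypothesis implies that Split(Λ,Λ) is not preserved by unions of two sets of reals. -/
theorem result :
    (∃ (P : Type) (_ : Preorder P), Nonempty P ∧
      ∀ p : P, p ∈ OmegaOnePreserved P ∧ p ∈ CHHolds P) ∧
    ((𝔠 : Cardinal.{0}) = ℵ₁ →
      ∃ X Y : Set ℝ, SplitLL X ∧ SplitLL Y ∧ ¬ SplitLL (X ∪ Y)) := by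
  refine ⟨?_, Pool.Agent.Results.MP_293d80_gt.CounterexampleUnderCH.result⟩
  obtain ⟨P, hP, hne, h⟩ := Pool.Agent.Helper896.ForceCH.exists_forcing
  exact ⟨P, hP, hne, fun p => ⟨(h p).1, (h p).2.2⟩⟩

end Pool.Agent.Results.MP_293d80_gt.ConsistentlyNotAdditive
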